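import Pool.Agent.Lib.MP_dee884_lc.H4.Thr

/-!
# MP_dee884_lc: RUD and nondeterministic linear time with o(n) cells on all work tapes but one

Definitions: `LINTIME`, `InQ` (Lib/MP_dee884_lc/Defs.lean), `Rud` (H1/Rud.lean), `pad` (H2/Defs.lean),
`NM`, `NC`, `upd`, `NM.Acc`, `ini`, `Restr`, `AlmostOne`, `ClsB`, `lt01`, `withAdvice`
(H4/StmF.lean).
-/

namespace Pool.Agent.Results.MP_dee884_lc.AlmostOneTape

open MPdee884H1 MPdee884H2 MPdee884H4 Pool.Agent.Lin

/-- (1) Let `E` be a finite family of languages in RUD. For all `k` and `j` there is a language `U`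
in RUD over `{false, true}` which disagrees with each language of the class `ClsB E (k + 2) j` on
all words with a suitable beginning `w`; it also disagrees with each language of this class with
advice of length `n - n / D` (any `D ≥ 1`) on all words `x` of length `n` which begin with a
suitable word `w`: the advice for `x` is `a`, the last `n - n / D` letters of `x`. In this class all
work tapes but one use only `o(n)` cells. (2) With `n / D + 2` cells instead of `o(n)` (any
`D ≥ 1`) the languages accepted in linear time are exactly the ones in Q. (3) For all `E`, `k`, `j`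
as in (1) some language in Q has a complement which is not accepted in linear time with `o(n)` cells
on all work tapes but one, and which is not in the intersection of Q and `ClsB E (k + 2) j`. -/
theorem result :
    (∀ {ρ : Type} [Finite ρ] {B : ρ → Type} [∀ i, Finite (B i)]
      (E : (i : ρ) → Set (List (B i × Bool))), (∀ i, Rud (B i × Bool) (E i)) → ∀ k j : ℕ,
      ∃ U : Set (List Bool), Rud Bool U ∧
        (∀ L : Set (List Bool), ClsB E (k + 2) j Bool L →
          ∃ w : List Bool, ∀ r : List Bool, w ++ r ∈ U ↔ w ++ r ∉ L) ∧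
        ∀ L : Set (List (Bool × Fin (k + 2))), ClsB E (k + 2) j (Bool × Fin (k + 2)) L →
          ∀ D : ℕ, 1 ≤ D → ∃ w : List Bool, ∀ x a : List Bool, w <+: x →
            a.length = x.length - x.length / D → a <:+ x → (x ∈ U ↔ withAdvice k x a ∉ L)) ∧
    (∀ {A : Type} [Finite A] (D : ℕ), 1 ≤ D → ∀ L : Set (List A),
      InQ L ↔ Restr (fun n => n / D + 2) L) ∧
    ∀ {ρ : Type} [Finite ρ] {B : ρ → Type} [∀ i, Finite (B i)]
      (E : (i : ρ) → Set (List (B i × Bool))), (∀ i, Rud (B i × Bool) (E i)) → ∀ k j : ℕ,
      ∃ L : Set (List Bool), InQ L ∧ ¬ AlmostOne Lᶜ ∧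
        ¬ (InQ Lᶜ ∧ ClsB E (k + 2) j Bool Lᶜ) :=
  ⟨fun E hE k j => rud_clsB E hE k j, fun D hD L => inQ_restr D hD L,
    fun E hE k j => coQ_clsB E hE k j⟩

end Pool.Agent.Results.MP_dee884_lc.AlmostOneTape
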