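import Pool.Agent.Lib.MP_dee884_lc.H3.Final

/-!
# MP_dee884_lc: nondeterministic linear time with a fixed rate of guesses is not closed under
# complement

Definitions: `LINTIME` (Pool.Agent.Lib.MP_dee884_lc.Defs), `Sg` (H3/SgDef.lean).
-/

namespace Pool.Agent.Results.MP_dee884_lc.GuessRates

open MPdee884H3

/-- For all `j, k ≥ 1` there is a language `L` over `{false, true}` in `Σ_j(k + 1)` whose complement
is not in `Σ_j(k)`. -/
theorem result (j k : ℕ) (hj : 1 ≤ j) (hk : 1 ≤ k) :
    ∃ L : Set (List Bool), Sg (k + 1) j Bool L ∧ ¬ Sg k j Bool Lᶜ :=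
  co_sg j k hj hk

end Pool.Agent.Results.MP_dee884_lc.GuessRates
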