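import Pool.Agent.Lib.MP_dee884_lc.RegOps

/-!
# Complements of languages of `Q` and the rational operations

The class of the complements of the languages of `Q` is closed under concatenation if and only if it is closed under iteration, and if and only if
`Q` is closed under the universal quantification over the cuts (over the prefixes; over the factors) of the input.
-/

set_option autoImplicit false

open Pool.Agent.Lin

namespace Pool.Agent.Results.MP_dee884_lc.RegularOps

theorem result : List.TFAE [
    -- complements of the languages of `Q`: concatenation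
    ∀ (α : Type) [Finite α] (A B : Set (List α)), InQ Aᶜ → InQ Bᶜ → InQ (cat A B)ᶜ,
    -- complements of the languages of `Q`: iteration
    ∀ (α : Type) [Finite α] (A : Set (List α)), InQ Aᶜ → InQ (star A)ᶜ,
    -- all prefixes
    ∀ (α : Type) [Finite α] (L : Set (List α)), InQ L → InQ {x | ∀ u, u <+: x → u ∈ L},
    -- all factors
    ∀ (α : Type) [Finite α] (L : Set (List α)), InQ L → InQ {x | ∀ u, u <:+: x → u ∈ L},
    -- all cuts of the input into two parts
    ∀ (α : Type) [Finite α] (L : Set (List (α ⊕ α))), InQ L →
      InQ {x : List α | ∀ u v : List α, u ++ v = x → (u.map Sum.inl ++ v.map Sum.inr : List (α ⊕ α)) ∈ L}] := by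
  tfae_have 1 → 2 := PStar_of_PCat
  tfae_have 2 → 3 := PPre_of_PStar
  tfae_have 1 → 4 := PFac_of_PCat
  tfae_have 4 → 3 := PPre_of_PFac
  tfae_have 3 → 5 := PCut_of_PPre
  tfae_have 5 → 1 := PCat_of_PCut
  tfae_finish

end Pool.Agent.Results.MP_dee884_lc.RegularOps
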