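import Pool.Agent.Lib.MP_dee884_lc.Tally

/-!
# Complements of languages of `Q` with the growth of a Sturmian language

Let `L` be a prefix-closed language in `Q` without dead ends and let `d n = |L_(n + 1)| - |L_n|` (`L_n` is the set of the words of length `n`).
If `d` is eventually periodic, or `d` is bounded and the sets `{1^n : d n ≤ j}` are in `Q`, then the complement of `L` is in `Q`.
-/

set_option autoImplicit false

open Pool.Agent.Lin

namespace Pool.Agent.Results.MP_dee884_lc.ThinTrees

theorem result (α : Type) [Finite α] (L : Set (List α)) (hL : InQ L) (h1 : PrefixClosed L) (h2 : Leafless L)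
    (hd : (∃ N p : ℕ, 0 < p ∧ ∀ n ≥ N, cens L (n + p + 1) - cens L (n + p) = cens L (n + 1) - cens L n) ∨
      ((∃ k : ℕ, ∀ n, cens L (n + 1) ≤ cens L n + k) ∧
        ∀ j : ℕ, InQ {a : List Unit | cens L (a.length + 1) ≤ cens L a.length + j})) : InQ Lᶜ := by
  rcases hd with ⟨N, p, hp, hper⟩ | ⟨⟨k, hk⟩, hT⟩
  · have := Fintype.ofFinite α
    have hmono : ∀ n, cens L n ≤ cens L (n + 1) := fun n => by
      rw [cens_add_wt h1 h2]
      exact Nat.le_add_right _ _
    -- a bound for the increments
    obtain ⟨k, hk⟩ := Finite.exists_le fun i : Fin (N + p) => cens L (i.1 + 1) - cens L i.1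
    have hbd : ∀ n, cens L (n + 1) - cens L n ≤ k := by
      intro n
      induction n using Nat.strong_induction_on with
      | _ n ih =>
        rcases Nat.lt_or_ge n (N + p) with h | h
        · exact hk ⟨n, h⟩
        · have h3 := hper (n - p) (by omega)
          have h4 := ih (n - p) (by omega)
          have e : n - p + p = n := by omega
          rw [e] at h3
          rw [h3]
          exact h4
    refine tree_compl L k hL h1 h2 (fun n => ?_) fun j => ?_
    · have := hbd n
      omega
    · refine inQ_evper (fun n => cens L (n + 1) ≤ cens L n + j) N p hp fun n hn => ?_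
      have h3 := hper n hn
      have h4 := hmono n
      have h5 := hmono (n + p)
      constructor
      · intro h
        omega
      · intro h
        omega
  · exact tree_compl L k hL h1 h2 hk hT

end Pool.Agent.Results.MP_dee884_lc.ThinTrees
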